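import Mathlib

namespace Pool.Agent.Results.MP_12cf7c_an.NoPoint

open Set Filter Topology

/-- The covering map from Euclidean space onto the torus. -/
def proj {n : ℕ} (y : EuclideanSpace ℝ (Fin n)) : Fin n → UnitAddCircle := fun i => (y i : ℝ)

/-- `u` is a global viscosity subsolution of `H(x, Du) = c` on the torus. -/
def IsSub {n : ℕ} (H : (Fin n → UnitAddCircle) → EuclideanSpace ℝ (Fin n) → ℝ) (c : ℝ)
    (u : (Fin n → UnitAddCircle) → ℝ) : Prop :=
  Continuous u ∧ ∀ φ : EuclideanSpace ℝ (Fin n) → ℝ, ContDiff ℝ 1 φ → ∀ y,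
    IsLocalMax (fun z => u (proj z) - φ z) y → H (proj y) (gradient φ y) ≤ c

/-- `u` is a global viscosity supersolution of `H(x, Du) = c` on the torus. -/
def IsSuper {n : ℕ} (H : (Fin n → UnitAddCircle) → EuclideanSpace ℝ (Fin n) → ℝ) (c : ℝ)
    (u : (Fin n → UnitAddCircle) → ℝ) : Prop :=
  Continuous u ∧ ∀ φ : EuclideanSpace ℝ (Fin n) → ℝ, ContDiff ℝ 1 φ → ∀ y,
    IsLocalMin (fun z => u (proj z) - φ z) y → c ≤ H (proj y) (gradient φ y)

theorem proj_surj {n : ℕ} (t : Fin n → UnitAddCircle) : ∃ y, proj y = t := by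
  choose y hy using fun i => QuotientAddGroup.mk_surjective (t i)
  exact ⟨WithLp.toLp 2 y, funext hy⟩

theorem proj_cont {n : ℕ} : Continuous (proj (n := n)) :=
  continuous_pi fun i => (AddCircle.continuous_mk' 1).comp (by fun_prop)

theorem norm_grad {n : ℕ} (φ : EuclideanSpace ℝ (Fin n) → ℝ) (y : EuclideanSpace ℝ (Fin n)) :
    ‖gradient φ y‖ = ‖fderiv ℝ φ y‖ := LinearIsometryEquiv.norm_map _ _

theorem lip {n : ℕ} {u : (Fin n → UnitAddCircle) → ℝ}
    (hu : IsSub (fun _ p => ‖p‖ ^ 4 - 2 * ‖p‖ ^ 2) 0 u) (x y : EuclideanSpace ℝ (Fin n)) :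
    u (proj y) - u (proj x) ≤ 4 * ‖y - x‖ := by
  have hc : Continuous fun z => u (proj z) := hu.1.comp proj_cont
  obtain ⟨M, hM⟩ : ∃ M, ∀ t, |u t| ≤ M := by
    obtain ⟨t, ht⟩ := isCompact_univ.exists_isMaxOn univ_nonempty hu.1.abs.continuousOn
    exact ⟨_, fun s => ht.2 (mem_univ s)⟩
  have key : ∀ ε > 0, ∃ z, ‖z - x‖ ≤ ε ∧ u (proj y) - 4 * (ε + ‖y - x‖) ≤ u (proj z) := by
    intro ε hε
    let φ : EuclideanSpace ℝ (Fin n) → ℝ := fun z => 4 * √(ε ^ 2 + ‖z - x‖ ^ 2)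
    have hp : ∀ z : EuclideanSpace ℝ (Fin n), ε ^ 2 + ‖z - x‖ ^ 2 ≠ 0 := fun z => by positivity
    have hφ : ContDiff ℝ 1 φ := contDiff_const.mul
      ((contDiff_const.add ((contDiff_id.sub contDiff_const).norm_sq ℝ)).sqrt hp)
    have h1 : ∀ z, 4 * ‖z - x‖ ≤ φ z := fun z => mul_le_mul_of_nonneg_left
      (Real.le_sqrt_of_sq_le (by nlinarith)) (by norm_num)
    have h2 : ∀ z, φ z ≤ 4 * (ε + ‖z - x‖) := fun z => mul_le_mul_of_nonneg_left
      (Real.sqrt_le_iff.2 ⟨by positivity, by nlinarith [norm_nonneg (z - x)]⟩) (by norm_num)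
    obtain ⟨z, hz⟩ := (hc.sub hφ.continuous).exists_forall_ge' x (by
      filter_upwards [(isCompact_closedBall x (M + ε)).compl_mem_cocompact] with z hz
      have h3 : M + ε < ‖z - x‖ := by simpa [dist_eq_norm] using hz
      have := h1 z
      have := h2 x
      have := abs_le.1 (hM (proj z))
      have := abs_le.1 (hM (proj x))
      have : 0 ≤ M := (abs_nonneg _).trans (hM (proj x))
      simp only [sub_self, norm_zero, Pi.sub_apply] at *
      linarith)
    have h3 := hu.2 φ hφ z (Eventually.of_forall hz)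
    have h4 : ‖fderiv ℝ φ z‖ ≤ 2 := by
      rw [← norm_grad]
      by_contra h4
      rw [not_le] at h4
      have h5 : 4 < ‖gradient φ z‖ ^ 2 := by nlinarith
      nlinarith
    have h5 := ((((hasFDerivAt_id z).sub_const x).norm_sq.const_add (ε ^ 2)).sqrt
      (hp z)).const_mul 4
    have h6 := (fderiv ℝ φ z).le_of_opNorm_le h4 (z - x)
    rw [show fderiv ℝ φ z = _ from h5.fderiv] at h6
    have h7 : 0 < √(ε ^ 2 + ‖z - x‖ ^ 2) := by positivity
    have h8 : 4 * (‖z - x‖ ^ 2 / √(ε ^ 2 + ‖z - x‖ ^ 2)) ≤ 2 * ‖z - x‖ := by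
      refine le_trans (le_of_eq ?_) ((le_abs_self _).trans h6)
      simp
      field_simp
      rw [← inner_sub_left, real_inner_self_eq_norm_sq]
    refine ⟨z, ?_, ?_⟩
    · by_contra h9
      rw [not_le] at h9
      have h10 := h2 z
      rw [← mul_div_assoc, div_le_iff₀ h7] at h8
      simp only [φ] at h10
      nlinarith
    · have : u (proj y) - φ y ≤ u (proj z) - φ z := hz y
      have := h2 y
      have := h1 z
      have := norm_nonneg (z - x)
      linarith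
  refine le_of_forall_pos_le_add fun δ hδ => ?_
  obtain ⟨η, hη, h1⟩ := Metric.continuousAt_iff.1 (hc.continuousAt (x := x)) (δ / 2) (by positivity)
  obtain ⟨z, h2, h3⟩ := key (min (η / 2) (δ / 8)) (by positivity)
  have h4 := h1 (x := z) (by rw [dist_eq_norm]; linarith [min_le_left (η / 2) (δ / 8)])
  rw [Real.dist_eq] at h4
  linarith [min_le_right (η / 2) (δ / 8), (abs_lt.1 h4).2]

theorem result (n : ℕ) (hn : 1 ≤ n) :
    ∃ H : (Fin n → UnitAddCircle) → EuclideanSpace ℝ (Fin n) → ℝ,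
      Continuous (Function.uncurry H) ∧ (∀ M : ℝ, ∃ R : ℝ, ∀ x p, R ≤ ‖p‖ → M * ‖p‖ ≤ H x p) ∧
      ∃ c₀ : ℝ, IsGLB {c | ∃ u, IsSub H c u} c₀ ∧
        ∀ x, ∃ S : (Fin n → UnitAddCircle) → ℝ, Continuous S ∧
          (∀ y, IsLUB {r | ∃ u, IsSub H c₀ u ∧ r = u y - u x} (S y)) ∧ ¬ IsSuper H c₀ S := by
  have smooth : ∀ u : (Fin n → UnitAddCircle) → ℝ, Continuous u →
      (∀ y, ∃ L : EuclideanSpace ℝ (Fin n) →L[ℝ] ℝ,
        HasFDerivAt (fun z => u (proj z)) L y ∧ ‖L‖ ≤ 1) →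
      IsSub (fun _ p => ‖p‖ ^ 4 - 2 * ‖p‖ ^ 2) 0 u := by
    refine fun u hu h => ⟨hu, fun φ hφ y hy => ?_⟩
    obtain ⟨L, h1, h2⟩ := h y
    have h3 := hy.hasFDerivAt_eq_zero (h1.sub (hφ.differentiable one_ne_zero y).hasFDerivAt)
    beta_reduce
    rw [norm_grad, ← sub_eq_zero.1 h3]
    have h4 : ‖L‖ ^ 2 ≤ 1 := by nlinarith [norm_nonneg L]
    nlinarith [sq_nonneg ‖L‖]
  have h0 := smooth (fun _ => 0) continuous_const fun y => ⟨0, hasFDerivAt_const _ _, by simp⟩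
  refine ⟨fun _ p => ‖p‖ ^ 4 - 2 * ‖p‖ ^ 2, by fun_prop, fun M => ⟨|M| + 2, fun x p hp => ?_⟩, 0,
    IsLeast.isGLB ⟨⟨_, h0⟩, ?_⟩, fun x => ?_⟩
  · have h1 := le_abs_self M
    have h2 := abs_nonneg M
    have h3 : 4 ≤ ‖p‖ ^ 2 := by nlinarith
    nlinarith
  · rintro c ⟨u, h1, h2⟩
    obtain ⟨t, -, ht⟩ := isCompact_univ.exists_isMaxOn univ_nonempty h1.continuousOn
    obtain ⟨y, rfl⟩ := proj_surj t
    simpa using h2 (fun _ => 0) contDiff_const y
      (Eventually.of_forall fun z => by simpa using ht (mem_univ (proj z)))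
  obtain ⟨x, rfl⟩ := proj_surj x
  have hS : ∀ y, ∃ s, IsLUB {r | ∃ u, IsSub (fun _ p => ‖p‖ ^ 4 - 2 * ‖p‖ ^ 2) 0 u ∧
      r = u y - u (proj x)} s := by
    intro y
    obtain ⟨y, rfl⟩ := proj_surj y
    exact ⟨_, isLUB_csSup ⟨_, _, h0, rfl⟩ ⟨_, by rintro _ ⟨u, hu, rfl⟩; exact lip hu x y⟩⟩
  choose S hS using hS
  have hS0 : S (proj x) ≤ 0 := (hS _).2 (by rintro _ ⟨u, -, rfl⟩; simp)
  have hL : ∀ y z, S (proj y) ≤ S (proj z) + 4 * ‖y - z‖ := fun y z => (hS _).2 (by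
    rintro _ ⟨u, hu, rfl⟩
    have := (hS (proj z)).1 ⟨u, hu, rfl⟩
    linarith [lip hu z y])
  let v : EuclideanSpace ℝ (Fin n) := EuclideanSpace.single ⟨0, hn⟩ 1
  let φ : EuclideanSpace ℝ (Fin n) → ℝ := fun z =>
    (2 * Real.pi)⁻¹ * Real.sin (2 * Real.pi * innerSL ℝ v (z - x))
  have hd : ∀ z, HasFDerivAt φ
      (Real.cos (2 * Real.pi * innerSL ℝ v (z - x)) • innerSL ℝ v) z := by
    intro z
    have := ((((innerSL ℝ v).hasFDerivAt.comp z ((hasFDerivAt_id z).sub_const x)).const_mul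
      (2 * Real.pi)).sin).const_mul (2 * Real.pi)⁻¹
    refine this.congr_fderiv ?_
    rw [ContinuousLinearMap.comp_id, smul_smul, smul_smul]
    congr 1
    simp only [Function.comp, id]
    field_simp
  let u : (Fin n → UnitAddCircle) → ℝ := fun t =>
    (2 * Real.pi)⁻¹ * (fourier 1 (t ⟨0, hn⟩ - proj x ⟨0, hn⟩) : ℂ).im
  have hu : ∀ z, u (proj z) = φ z := by
    intro z
    simp only [u, φ, proj, ← AddCircle.coe_sub, fourier_coe_apply]
    rw [← Complex.exp_ofReal_mul_I_im]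
    congr 3
    simp [v, EuclideanSpace.inner_single_left]
    ring
  have hv : ‖innerSL ℝ v‖ = 1 := by simp [v]
  have hsub := smooth u (by fun_prop) fun y => ⟨_, by simpa only [hu] using hd y, by
    rw [norm_smul, hv, mul_one]
    exact Real.abs_cos_le_one _⟩
  refine ⟨S, ?_, hS, fun h => ?_⟩
  · have hq : IsOpenQuotientMap (proj (n := n)) :=
      (IsOpenQuotientMap.piMap fun _ => QuotientAddGroup.isOpenQuotientMap_mk).comp
        (PiLp.homeomorph 2 fun _ : Fin n => ℝ).isOpenQuotientMap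
    rw [← hq.continuous_comp_iff]
    refine (LipschitzWith.of_le_add_mul 4 fun y z => ?_).continuous
    simpa [dist_eq_norm] using hL y z
  · have h1 := h.2 φ (by fun_prop) x (Eventually.of_forall fun z => by
      have := (hS (proj z)).1 ⟨u, hsub, rfl⟩
      simp only [hu] at this
      simp only [φ, sub_self, map_zero, mul_zero, Real.sin_zero] at this ⊢
      linarith)
    beta_reduce at h1
    rw [norm_grad, (hd x).fderiv, norm_smul, hv] at h1
    norm_num at h1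

end Pool.Agent.Results.MP_12cf7c_an.NoPoint
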